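import Mathlib
import Pool.Agent.Q243.ArrExample

/-!
# Vertex-transitivity of tope graphs and magnitude denominators: even rank

In every even rank `r ≥ 4` there is an arrangement whose tope graph is not vertex-transitive and
whose magnitude has a denominator which is not divisible by the `n`-th cyclotomic polynomial.
The arrangement is the product of four generic planes in `ℝ³` and the coordinate arrangement of
`ℝ^(r-3)`.
-/

namespace Pool.Agent.Results.MP_04f01b_co.EvenRankFails

open Pool.Agent.Q243.ArrMag

/-- Disproof of the conjecture in every even rank at least four. -/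
theorem result : ∀ r : ℕ, Even r → 4 ≤ r →
    ∃ (κ ι : Type) (_ : Fintype κ) (_ : Fintype ι) (A : Arr κ ι),
      rank A = r ∧ ¬ VertexTransitive (tope A) ∧
        ¬ Polynomial.cyclotomic (Fintype.card ι) ℚ ∣ (mag A).denom := by
  intro r hr h4
  obtain ⟨m, hm⟩ := hr
  refine ⟨Fin 3 ⊕ Fin (r - 3), Fin 4 ⊕ Fin (r - 3), inferInstance, inferInstance, ex (r - 3),
    ?_, not_vt _, ?_⟩
  · rw [rank_ex]
    omega
  · intro h
    have hcard : Fintype.card (Fin 4 ⊕ Fin (r - 3)) = r + 1 := by
      rw [Fintype.card_sum, Fintype.card_fin, Fintype.card_fin]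
      omega
    rw [hcard] at h
    have h8 := dvd_eight (r - 3) (r + 1) (by omega) h
    have hle := Nat.le_of_dvd (by norm_num) h8
    have h5 : r + 1 = 5 ∨ r + 1 = 7 := by omega
    rcases h5 with h5 | h5
    · rw [h5] at h8
      revert h8
      decide
    · rw [h5] at h8
      revert h8
      decide

end Pool.Agent.Results.MP_04f01b_co.EvenRankFails
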